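import Pool.Agent.Helper13.FST.Kc
import Pool.Agent.Helper15.FST.St

/-! FIRST, rows [KAP] and [CST]. -/

set_option autoImplicit false

namespace Pool.Agent.Helper13.FST

open Finset Filter Topology Matrix Pool.Agent.Helper69.RK Pool.Agent.Helper31.EC Pool.Agent.Helper31.EC.Sp
open Pool.Agent.Helper40.EL Pool.Agent.Helper89.LX Pool.Agent.Helper84.MT
open Pool.Agent.Helper49.MD Pool.Agent.Helper36.AM
open Pool.Agent.Helper29.MX
open Pool.Agent.Helper15.FST

noncomputable section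

variable {S T : Sp} {M N : ℕ} {E : ℕ → ℕ} {ι : Type}

/-- the entropies over the type-labels are bounded below -/
theorem HL_bdd (s : MSys S M E ι) (e c : ℝ) : BddBelow {v | ∃ l : Lab S, TLb s c l ∧ v = H (up1 l (s.Q.dg e))} :=
  ⟨0, by
    rintro v ⟨l, _, rfl⟩
    exact H_nonneg _⟩

theorem HL_le {s : MSys S M E ι} {e c : ℝ} {l : Lab S} (hl : TLb s c l) : HL s e c ≤ H (up1 l (s.Q.dg e)) :=
  csInf_le (HL_bdd s e c) ⟨l, hl, rfl⟩

/-- ROW [KAP] -/
theorem row_kap : ROW_KAP := by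
  intro N g r i j S s ht c l _ hc1 h
  have h1 : Pool.Agent.Helper3.ENT.Tri i j s := ht
  refine ⟨kap_tlb h, fun e _ _ => ?_⟩
  refine le_csInf ⟨_, l, kap_tlb h, rfl⟩ ?_
  rintro v ⟨l', hl', rfl⟩
  exact kap_le h1 hc1 h hl' _

/-- ROW [CST] -/
theorem row_cst (N : ℕ) : ROW_CST N := by
  intro C m v g r i j L u h V P hP S s hs e he h0 h1 c hc0 hc1 W hW hle T p A hA
  have hb := tlb_ofZ_im hW p A hA
  refine ⟨hb, ?_⟩
  -- the value on an event is at least the least entropy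
  have key : ∀ (A : ∀ k, (T.F k).Ω → Prop) (hA : 0 < ul (T.pr A)),
      h e c ≤ H (up1 (Lab.ofZ (S := Sp.im p A) W) ((s.im p A hA).Q.dg e)) := by
    intro A hA
    have a1 : P (Sp.im p A) (ob (s.im p A hA)) := hP.cls.im S (ob s) hs.2 T p A hA
    obtain ⟨t, ht, ht2⟩ := hP.ety _ _ a1
    have a2 : P (Sp.im p A) (ob t) := hP.cls.ev _ (ob (s.im p A hA)) (ob t) (ht.mono fun k hk => hk.symm) a1
    have a3 := hP.hl _ t ⟨ht2, a2⟩ e he h0 h1 c hc0 hc1
    have a4 : TLb t c (Lab.ofZ (S := Sp.im p A) W) := tlb_of_giv ht (tlb_ofZ_im hW p A hA)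
    have a5 := HL_le (e := e) a4
    rw [a3] at a5
    exact a5.trans_eq (H_of_giv ht W e)
  have hp0 : 0 ≤ ul (T.pr fun k ω => ¬ A k ω) :=
    const_le_ul (Sp.UB_pr _) (Eventually.of_forall fun k => (T.F k).pb_nonneg _)
  have hsum : ul (T.pr A) + ul (T.pr fun k ω => ¬ A k ω) = 1 := by
    rw [← ul_add (Sp.UB_pr A) (Sp.UB_pr _)]
    have e1 : (fun k => T.pr A k + T.pr (fun k ω => ¬ A k ω) k) = fun _ => 1 := funext fun k => (T.F k).pb_add_compl (A k)
    rw [e1, ul_const]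
  rcases eq_or_lt_of_le hp0 with h2 | h2
  · have h3 : ul (T.pr A) = 1 := by linarith
    have h4 := gW_event s W e p A hA
    rw [h3, one_mul] at h4
    exact h4.trans hle
  · have h4 := gW_split s W e p A hA h2
    have h5 := key (fun k ω => ¬ A k ω) h2
    have h6 : 0 ≤ 1 - ul (T.pr A) := by linarith
    have h7 := mul_le_mul_of_nonneg_left h5 h6
    have h8 : ul (T.pr A) * H (up1 (Lab.ofZ (S := Sp.im p A) W) ((s.im p A hA).Q.dg e)) ≤ ul (T.pr A) * h e c := by
      linarith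
    exact le_of_mul_le_mul_left h8 hA

end

end Pool.Agent.Helper13.FST
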