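import Pool.Agent.Helper70.CPW.Evz
import Pool.Agent.Helper70.CPW.Znm
import Pool.Agent.Helper52.GF.Mxb
import Pool.Agent.Helper3.ENT.Ent

/-! FIRST: maximal labels have the least entropies; the entropies over a literal label on an event and on its complement;
labels of least entropy have the same entropy on all events. -/

set_option autoImplicit false

namespace Pool.Agent.Helper13.FST

open Finset Filter Topology Matrix Pool.Agent.Helper69.RK Pool.Agent.Helper31.EC Pool.Agent.Helper31.EC.Sp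
open Pool.Agent.Helper40.EL Pool.Agent.Helper89.LX Pool.Agent.Helper84.MT
open Pool.Agent.Helper49.MD Pool.Agent.Helper36.AM
open Pool.Agent.Helper29.MX
open Pool.Agent.Helper3.ENT (Tri Ety)

noncomputable section

variable {S T : Sp} {M N : ℕ} {E : ℕ → ℕ} {ι : Type}

/-! ### maximal labels -/

/-- maximal labels have the least entropies -/
theorem kap_le {i j : ι} {s : MSys S M E ι} (ht : Tri i j s) {c : ℝ} (hc : c ≤ 1) {l : Lab S} (h : s.IsKap c l)
    {l' : Lab S} (hl : TLb s c l') (x : S.L) : H (up1 l x) ≤ H (up1 l' x) := by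
  rw [H_up1_eq, H_up1_eq]
  exact hlr_le_of_max ((ht.tlb_iff hc).mp hl) h (i₀ := none) (pcd_Bd s.Q) (rp_Bd x)

theorem kap_tlb {s : MSys S M E ι} {c : ℝ} {l : Lab S} (h : s.IsKap c l) : TLb s c l := fun a => h.1 (some a)

/-! ### literal labels on events -/

/-- conditional entropies on an event and on the complement -/
theorem h_im_split {F T : FSp} (p : FPj T F) (A : T.Ω → Prop) (X Y : FL F) :
    T.pb A * h (FSp.imap p A X) (FSp.imap p A Y) +
      (1 - T.pb A) * h (FSp.imap p (fun ω => ¬ A ω) X) (FSp.imap p (fun ω => ¬ A ω) Y) ≤ h X Y := by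
  have h1 := (T.h_rsplit A (p.map X) (p.map Y)).1
  have key : ∀ A : T.Ω → Prop, h (T.rmap A (p.map X)) (T.rmap A (p.map Y)) = h (FSp.imap p A X) (FSp.imap p A Y) := by
    intro A
    rw [← FSp.imp_imap, ← FSp.imp_imap, (FSp.imp p A).h_map]
  rw [key, key, p.h_map] at h1
  exact h1

/-- the entropy of the cells of level `e` over the literal label `W`, finite data -/
def gW (Q : S.VV M) (W : Rsl S) (e : ℝ) : ℕ → ℝ := fun k => h (pcr Q e k) (fc (W k)) / (S.F k).n

theorem H_gW (Q : S.VV M) (W : Rsl S) (e : ℝ) : H (up1 (Lab.ofZ W) (Q.dg e)) = ul (gW Q W e) := by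
  rw [Pool.Agent.Helper52.GF.H_pcr]
  refine ul_congr (Eventually.of_forall fun k => ?_)
  refine congrArg (fun t => t / (S.F k).n) ?_
  have h1 : ((Lab.ofZ W) k).v = (FLab.triv (S.F k)).p.map (fc (W k)) := rfl
  have h2 : ((Lab.ofZ W) k).p.map (pcr Q e k) = (FLab.triv (S.F k)).p.map (pcr Q e k) := rfl
  rw [h1, h2]
  exact (FLab.triv (S.F k)).p.h_map _ _

theorem gW_UB (Q : S.VV M) (W : Rsl S) (e : ℝ) : UB (gW Q W e) := (pcr_Bd Q e).ub fun k => fc (W k)

theorem gW_nonneg (Q : S.VV M) (W : Rsl S) (e : ℝ) (k : ℕ) : 0 ≤ gW Q W e k :=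
  div_nonneg (h_nonneg _ _) (S.F k).pos.le

theorem gW_im (s : MSys S M E ι) (W : Rsl S) (e : ℝ) (p : Pj T S) (A : ∀ k, (T.F k).Ω → Prop) (hA : 0 < ul (T.pr A))
    (k : ℕ) : gW (S := Sp.im p A) (s.im p A hA).Q W e k =
      h (FSp.imap (p.fp k) (A k) (pcr s.Q e k)) (FSp.imap (p.fp k) (A k) (fc (W k))) / (S.F k).n := rfl

/-- the entropy on an event and on the complement -/
theorem gW_split (s : MSys S M E ι) (W : Rsl S) (e : ℝ) (p : Pj T S) (A : ∀ k, (T.F k).Ω → Prop)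
    (hA : 0 < ul (T.pr A)) (hA' : 0 < ul (T.pr fun k ω => ¬ A k ω)) :
    ul (T.pr A) * H (up1 (Lab.ofZ (S := Sp.im p A) W) ((s.im p A hA).Q.dg e)) + (1 - ul (T.pr A)) *
      H (up1 (Lab.ofZ (S := Sp.im p fun k ω => ¬ A k ω) W) ((s.im p (fun k ω => ¬ A k ω) hA').Q.dg e)) ≤
      H (up1 (Lab.ofZ W) (s.Q.dg e)) := by
  have e1 := H_gW (S := Sp.im p A) (s.im p A hA).Q W e
  have e2 := H_gW (S := Sp.im p fun k ω => ¬ A k ω) (s.im p (fun k ω => ¬ A k ω) hA').Q W e
  refine (congrArg₂ (fun x y => ul (T.pr A) * x + (1 - ul (T.pr A)) * y) e1 e2).trans_le ?_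
  rw [H_gW]
  have t1 := ((ul_tendsto (Sp.UB_pr A)).mul (ul_tendsto (gW_UB (S := Sp.im p A) (s.im p A hA).Q W e))).add
    (((ul_tendsto (Sp.UB_pr A)).const_sub 1).mul
      (ul_tendsto (gW_UB (S := Sp.im p fun k ω => ¬ A k ω) (s.im p (fun k ω => ¬ A k ω) hA').Q W e)))
  refine le_of_tendsto_of_tendsto t1 (ul_tendsto (gW_UB s.Q W e)) (Eventually.of_forall fun k => ?_)
  have h1 := h_im_split (p.fp k) (A k) (pcr s.Q e k) (fc (W k))
  show (T.F k).pb (A k) * gW (S := Sp.im p A) (s.im p A hA).Q W e k +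
    (1 - (T.F k).pb (A k)) * gW (S := Sp.im p fun k ω => ¬ A k ω) (s.im p (fun k ω => ¬ A k ω) hA').Q W e k ≤
    h (pcr s.Q e k) (fc (W k)) / (S.F k).n
  rw [gW_im, gW_im, ← mul_div_assoc, ← mul_div_assoc, ← add_div]
  exact div_le_div_of_nonneg_right h1 (S.F k).pos.le

/-- the entropy on an event -/
theorem gW_event (s : MSys S M E ι) (W : Rsl S) (e : ℝ) (p : Pj T S) (A : ∀ k, (T.F k).Ω → Prop)
    (hA : 0 < ul (T.pr A)) :
    ul (T.pr A) * H (up1 (Lab.ofZ (S := Sp.im p A) W) ((s.im p A hA).Q.dg e)) ≤ H (up1 (Lab.ofZ W) (s.Q.dg e)) := by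
  have e1 := H_gW (S := Sp.im p A) (s.im p A hA).Q W e
  refine (congrArg (fun x => ul (T.pr A) * x) e1).trans_le ?_
  rw [H_gW]
  have t1 := (ul_tendsto (Sp.UB_pr A)).mul (ul_tendsto (gW_UB (S := Sp.im p A) (s.im p A hA).Q W e))
  refine le_of_tendsto_of_tendsto t1 (ul_tendsto (gW_UB s.Q W e)) (Eventually.of_forall fun k => ?_)
  have h1 := h_im_split (p.fp k) (A k) (pcr s.Q e k) (fc (W k))
  have h2 : 0 ≤ (1 - (T.F k).pb (A k)) * h (FSp.imap (p.fp k) (fun ω => ¬ A k ω) (pcr s.Q e k))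
      (FSp.imap (p.fp k) (fun ω => ¬ A k ω) (fc (W k))) :=
    mul_nonneg (sub_nonneg.mpr ((T.F k).pb_le_one _)) (h_nonneg _ _)
  show (T.F k).pb (A k) * gW (S := Sp.im p A) (s.im p A hA).Q W e k ≤ h (pcr s.Q e k) (fc (W k)) / (S.F k).n
  rw [gW_im, ← mul_div_assoc]
  exact div_le_div_of_nonneg_right (by linarith) (S.F k).pos.le

/-- literal type-labels on events of extensions -/
theorem tlb_ofZ_im {s : MSys S M E ι} {c : ℝ} {W : Rsl S} (h : TLb s c (Lab.ofZ W)) (p : Pj T S)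
    (A : ∀ k, (T.F k).Ω → Prop) (hA : 0 < ul (T.pr A)) : TLb (s.im p A hA) c (Lab.ofZ (S := Sp.im p A) W) :=
  (tlb_iff (s.im p A hA) c _).mp (Pool.Agent.Helper70.CPW.klb_im ((tlb_iff s c _).mpr h) p A hA)

/-! ### systems with the same object -/

/-- the entropy over a literal label is determined by the object -/
theorem H_of_giv {s t : MSys S M E ι} (hg : ∀ᶠ k in UF, ob t k = ob s k) (W : Rsl S) (e : ℝ) :
    H (up1 (Lab.ofZ W) (t.Q.dg e)) = H (up1 (Lab.ofZ W) (s.Q.dg e)) := by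
  rw [H_gW, H_gW]
  refine ul_congr ?_
  filter_upwards [hg] with k hk
  have h1 : t.Q.v k = s.Q.v k := congrArg FMs.Q hk
  have h2 : pcr t.Q e k = pcr s.Q e k := by
    have h3 : t.Q.cellv e k = s.Q.cellv e k := by
      unfold VV.cellv
      rw [h1]
    unfold pcr
    rw [h3]
  show h (pcr t.Q e k) (fc (W k)) / (S.F k).n = h (pcr s.Q e k) (fc (W k)) / (S.F k).n
  rw [h2]

/-- the type-labels are determined by the object -/
theorem tlb_of_giv {s t : MSys S M E ι} (h : ∀ᶠ k in UF, ob t k = ob s k) {c : ℝ} {l : Lab S} (hl : TLb s c l) :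
    TLb t c l := by
  intro i
  refine (show Tendsto _ _ _ from hl i).congr' ?_
  filter_upwards [h] with k hk
  have h1 : (t.lf i).win c k = (s.lf i).win c k := by
    have e1 := cnd_ob t c (some i) k
    have e2 := cnd_ob s c (some i) k
    rw [hk, ← e2] at e1
    exact e1
  rw [h1]

end

end Pool.Agent.Helper13.FST
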